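import Pool.Agent.H604.DE.Final
import Pool.Agent.H604.OD.Phi

/-!
# The diagonal Moebius-twisted Elliott-Halberstam sums at level one, for almost primes of each parity,
over `F_q[X]`, `q` even

Let `K` be a finite field with an even number `q` of elements (`q` is fixed, `q = 2` included) and
`h ≠ 0` a polynomial of degree smaller than `n`.  Consider the monic squarefree `F` of degree `n` all
of whose irreducible factors have degree larger than `κ n` (so that there are fewer than `1 / κ` of
them), with an odd or with an even number of irreducible factors; `F - h` is monic of degree `n`, and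
`F + (F - h) = h` in characteristic two.  The sum of the `μ(F - h)` over the `F` in the residue class
of `h` modulo `M` (the diagonal class: `M` divides `F - h`) is small in comparison with the number of
these `F`, for all `M` of degree `d ≤ (1 - ε) n` coprime to `h` with at most `q ^ (d - δ n)`
exceptions, and the sum of the discrepancies over all `M` of degree at most `(1 - ε) n` is small in
comparison with the trivial bound, uniformly in `h`.

Proof: `F = M k + h`, `F - h = M k`.  The twisted sieve of `MP_00e23e_nt.BothParitiesLevelOne` for the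
weights `μ(M k)` (bounded with Weil's theorem, for every `M`) and `μ(M k) μ(M k + h)` (which gives the
parity); for the `k` with a prime factor of degree between `c₀ n` and `c₂ n` the latter sums in the
classes modulo `D` are bounded with helper251's type II estimate in characteristic two and Ramaré's
weights; the other `k` are few, also after sifting, if `c₀ / c₂` is small.

Authors of the parts: type II estimate and Möbius sums in progressions: helper251 and the modules
`Pool.Agent.H251.SP`; Ramaré's weights: helper527 and others; the modules `Pool.Agent.H604.OD` of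
`MP_00e23e_nt.BothParitiesLevelOne` (helper71, helper740, helper323, helper806, helper996); here:
helper682 (typical sums), helper965 (exceptional moduli), helper118 (Möbius sums), helper789 (Euler's
function), helper604 (plan, statements, assembly).
-/

namespace Pool.Agent.Results.MP_e9eb55_nt.AlmostPrimesLevelOne

open Polynomial

open Classical in
/-- The Möbius function of `K[X]`: `(-1) ^ k` if `F` is a nonzero constant times a product of `k`
distinct monic irreducible polynomials, and `0` for all other `F`. -/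
noncomputable def moebius {K : Type} [Field K] (F : K[X]) : ℤ :=
  if Squarefree F then (-1) ^ Multiset.card (UniqueFactorizationMonoid.factors F) else 0

/-- The monic squarefree `F` of degree `n` with `F ≡ h mod M`, all of whose irreducible factors have
degree larger than `κ n`, with `μ(F) = -1` (an odd number of irreducible factors, `b = true`) or
`μ(F) = 1` (an even number, `b = false`). -/
def AlmostPrimes {K : Type} [Field K] (κ : ℝ) (b : Bool) (n : ℕ) (M h : K[X]) : Set K[X] :=
  {F : K[X] | F.Monic ∧ F.natDegree = n ∧ M ∣ F - h ∧ Squarefree F ∧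
    (∀ P : K[X], Irreducible P → P ∣ F → κ * n < (P.natDegree : ℝ)) ∧
    (Odd (Multiset.card (UniqueFactorizationMonoid.factors F)) ↔ b = true)}

/-- The number of all almost primes of degree `n` with the given parity. -/
noncomputable def total (K : Type) [Field K] (κ : ℝ) (b : Bool) (n : ℕ) : ℝ :=
  ((AlmostPrimes κ b n (1 : K[X]) 0).ncard : ℝ)

/-- The sum of the `μ(F - h)` over the almost primes `F ≡ h mod M`. -/
noncomputable def diagSum {K : Type} [Field K] (κ : ℝ) (b : Bool) (n : ℕ) (M h : K[X]) : ℝ :=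
  ∑ᶠ F ∈ AlmostPrimes κ b n M h, (moebius (F - h) : ℝ)

/-- Euler's function: the number of the reduced residues modulo `M`. -/
noncomputable def phi {K : Type} [Field K] (M : K[X]) : ℝ :=
  ({r : K[X] | r.degree < M.degree ∧ IsCoprime r M}.ncard : ℝ)

theorem char_two (K : Type) [Field K] [Fintype K] (hK : Even (Fintype.card K)) : CharP K 2 := by
  obtain ⟨p, hp⟩ := CharP.exists K
  have := hp
  obtain ⟨m, hprime, hcard⟩ := FiniteField.card K p
  rw [hcard] at hK
  have : p = 2 := (Nat.Prime.even_iff hprime).1 (Nat.even_pow.1 hK).1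
  rwa [this] at hp

theorem ap_eq {K : Type} [Field K] {κ : ℝ} (hκ : 0 < κ) (b : Bool) (n : ℕ) (M h : K[X]) :
    AlmostPrimes κ b n M h = Pool.Agent.H604.OD.Alp b n ⌊κ * n⌋₊ M h := by
  ext F
  constructor
  · rintro ⟨a1, a2, a3, a4, a5, a6⟩
    exact ⟨a1, a2, a3, a4, fun P hP hd =>
      (Nat.floor_lt (mul_nonneg hκ.le (Nat.cast_nonneg n))).2 (a5 P hP hd), a6⟩
  · rintro ⟨a1, a2, a3, a4, a5, a6⟩
    exact ⟨a1, a2, a3, a4, fun P hP hd =>
      (Nat.floor_lt (mul_nonneg hκ.le (Nat.cast_nonneg n))).1 (a5 P hP hd), a6⟩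

/-- **Diagonal Möbius-twisted Elliott-Halberstam at level one, almost primes of each parity.** -/
theorem result (K : Type) [Field K] [Fintype K] (hK : Even (Fintype.card K)) :
    ∃ c C : ℝ, 0 < c ∧ 0 < C ∧ ∀ ε ε₀ : ℝ, 0 < ε → 0 < ε₀ →
      ∃ κ₀ : ℝ, 0 < κ₀ ∧ ∀ κ : ℝ, 0 < κ → κ ≤ κ₀ → ∃ δ : ℝ, 0 < δ ∧ ∃ n₀ : ℕ, ∀ n : ℕ, n₀ ≤ n →
        ∀ b : Bool,
        -- the number of all almost primes of degree `n` with a given parity
        (c * ((Fintype.card K : ℝ) ^ n / (κ * n)) ≤ total K κ b n ∧
          total K κ b n ≤ C * ((Fintype.card K : ℝ) ^ n / (κ * n))) ∧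
        ∀ h : K[X], h ≠ 0 → h.natDegree < n →
          -- almost all moduli
          (∀ d : ℕ, (d : ℝ) ≤ (1 - ε) * n →
            ∃ Exc : Finset K[X], (Exc.card : ℝ) ≤ (Fintype.card K : ℝ) ^ ((d : ℝ) - δ * n) ∧
              ∀ M : K[X], M.Monic → M.natDegree = d → M ∉ Exc → IsCoprime M h →
                |diagSum κ b n M h| ≤ ε₀ * (total K κ b n / phi M)) ∧
          -- the sum over all moduli
          ∑ᶠ M ∈ {M : K[X] | M.Monic ∧ (M.natDegree : ℝ) ≤ (1 - ε) * n ∧ IsCoprime M h},
            |diagSum κ b n M h - diagSum κ b n (1 : K[X]) h / phi M| ≤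
              ε₀ * n * total K κ b n := by
  have hchar : CharP K 2 := char_two K hK
  obtain ⟨c, C, hc, hC, H1⟩ := Pool.Agent.H604.DE.diag K
  refine ⟨c, C, hc, hC, fun ε ε₀ hε hε₀ => ?_⟩
  obtain ⟨κ₀, hκ₀, H2⟩ := H1 ε ε₀ hε hε₀
  refine ⟨κ₀, hκ₀, fun κ hκ hκκ => ?_⟩
  obtain ⟨δ, hδ, n₀, H3⟩ := H2 κ hκ hκκ
  refine ⟨δ, hδ, n₀, fun n hn b => ?_⟩
  have e1 : ∀ M h : K[X], diagSum κ b n M h = Pool.Agent.H604.DE.TT b n ⌊κ * n⌋₊ M h := by
    intro M h
    unfold diagSum Pool.Agent.H604.DE.TT
    rw [ap_eq hκ]
    rfl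
  have e2 : total K κ b n =
      ((Pool.Agent.H604.OD.Alp b n ⌊κ * n⌋₊ (1 : K[X]) 0).ncard : ℝ) := by
    unfold total
    rw [ap_eq hκ]
  have e3 : ∀ M : K[X], M.Monic → phi M = Pool.Agent.H604.OD.phi M := fun M hM =>
    (Pool.Agent.H604.OD.phi_count hM).symm
  obtain ⟨a1, a2⟩ := H3 n hn b
  rw [e2]
  refine ⟨a1, fun h hh hhn => ?_⟩
  obtain ⟨a3, a4⟩ := a2 h hh hhn
  refine ⟨fun d hd => ?_, ?_⟩
  · obtain ⟨Exc, f1, f2⟩ := a3 d hd
    refine ⟨Exc, f1, fun M hM hMd hMe hcop => ?_⟩
    rw [e1, e3 M hM]
    exact f2 M hM hMd hMe hcop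
  · refine le_trans (le_of_eq ?_) a4
    refine finsum_mem_congr rfl fun M hM => ?_
    rw [e1, e1, e3 M hM.1]

end Pool.Agent.Results.MP_e9eb55_nt.AlmostPrimesLevelOne
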