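import Mathlib
import Pool.Agent.H251.MY.FinD
import Pool.Agent.H985.Cor.Base

/-!
# The diagonal Möbius-twisted Elliott-Halberstam sum over `F_q[X]`, `q` even: every shift

For every `ε > 0` there is a `θ > 0` such that, for large `n`, for every `H ≠ 0` of degree less than
`n` and all `y ≤ θ n`, the sum over *all* monic `E` of degree at most `y` coprime to `H` of
`|∑ μ (H - p) [E ∣ H - p] - (1 / φ (E)) ∑ μ (H - p)|`, `p` the monic irreducible polynomials of
degree `n`, is at most `ε` times the trivial bound `(y + 1) q ^ n / n`.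

Authors of the parts: the reduction to the combinatorial identity and the main type I/II estimates:
helper985's and helper251's projects (shifted primes and Chen-type theorems with parity over
`F_q[X]`, `q` even; many authors, see `Pool.Agent.H985.CG`, `Pool.Agent.H251.SP`); a fixed factor of
the modulus: helper706; few bad products: helper97; all moduli: helper996; design: helper251.
-/

namespace Pool.Agent.Results.MP_e9eb55_nt.EveryShiftPositiveLevel

open Polynomial

open Classical in
/-- The Möbius function of `K[X]`: `(-1) ^ k` if `F` is a nonzero constant times a product of `k`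
distinct monic irreducible polynomials, and `0` for all other `F`. -/
noncomputable def moebius {K : Type} [Field K] (F : K[X]) : ℤ :=
  if Squarefree F then (-1) ^ Multiset.card (UniqueFactorizationMonoid.factors F) else 0

/-- Euler's function: the number of the reduced residue classes modulo `E`. -/
noncomputable def totient {K : Type} [Field K] (E : K[X]) : ℕ :=
  {c : K[X] | c.degree < E.degree ∧ IsCoprime c E}.ncard

/-- The primes of degree `n`. -/
def primes (K : Type) [Field K] (n : ℕ) : Set K[X] :=
  {p | p.Monic ∧ Irreducible p ∧ p.natDegree = n}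

/-- The sum of `μ (H - p)` over the primes `p` of degree `n` with `p ≡ H` modulo `E`. -/
noncomputable def twisted {K : Type} [Field K] (n : ℕ) (H E : K[X]) : ℝ :=
  ∑ᶠ p ∈ {p | p ∈ primes K n ∧ E ∣ H - p}, (moebius (H - p) : ℝ)

/-- The monic moduli of degree at most `y` coprime to `H`. -/
def moduli {K : Type} [Field K] (y : ℕ) (H : K[X]) : Set K[X] :=
  {E | E.Monic ∧ E.natDegree ≤ y ∧ IsCoprime E H}

/-- **The diagonal Möbius-twisted Elliott-Halberstam sum, `q` even.** -/
theorem result (K : Type) [Field K] [Fintype K] (hK : Even (Fintype.card K)) (ε : ℝ) (hε : 0 < ε) :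
    ∃ θ : ℝ, 0 < θ ∧ ∃ N : ℕ, ∀ n : ℕ, N ≤ n → ∀ H : K[X], H ≠ 0 → H.natDegree < n →
      ∀ y : ℕ, (y : ℝ) ≤ θ * n →
        ∑ᶠ E ∈ moduli y H, |twisted n H E - 1 / (totient E : ℝ) * twisted n H 1| ≤
          ε * ((y + 1) * (Fintype.card K : ℝ) ^ n / n) := by
  classical
  have := Pool.Agent.H985.Cor.charTwo_of_even hK
  have hneg : ∀ x y : K[X], x - y = y + x := fun x y => by
    rw [CharTwo.sub_eq_add, add_comm]
  have htw : ∀ (n : ℕ) (H E : K[X]), twisted n H E =
      ∑ p ∈ (Pool.Agent.H694.Typ.Irn K n).filter (fun p => E ∣ p + H),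
        (Pool.Agent.H985.Chow.mob (p + H) : ℝ) := by
    intro n H E
    unfold twisted
    have hs : {p | p ∈ primes K n ∧ E ∣ H - p} =
        (((Pool.Agent.H694.Typ.Irn K n).filter (fun p => E ∣ p + H) : Finset K[X]) : Set K[X]) := by
      ext p
      rw [Finset.mem_coe, Finset.mem_filter, Pool.Agent.H694.Typ.mem_Irn, Set.mem_setOf_eq]
      unfold primes
      rw [Set.mem_setOf_eq, hneg]
      tauto
    rw [hs, finsum_mem_coe_finset]
    refine Finset.sum_congr rfl fun p _ => ?_
    rw [hneg]
    rfl
  obtain ⟨θ, hθ, N, HN⟩ := Pool.Agent.H251.MY.s_deh K ε hε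
  refine ⟨θ, hθ, N, fun n hn H hH hHd y hy => le_trans (le_of_eq ?_) (HN n hn y H hy hH hHd)⟩
  have hs : moduli y H = (((Finset.range (y + 1)).biUnion
      (fun i => (Pool.Agent.H694.Typ.Mn K i).filter (fun E => IsCoprime E H)) : Finset K[X]) :
        Set K[X]) := by
    ext E
    rw [Finset.mem_coe, Finset.mem_biUnion]
    unfold moduli
    rw [Set.mem_setOf_eq]
    constructor
    · rintro ⟨h1, h2, h3⟩
      exact ⟨E.natDegree, Finset.mem_range.2 (by omega),
        Finset.mem_filter.2 ⟨Pool.Agent.H694.Typ.mem_Mn.2 ⟨h1, rfl⟩, h3⟩⟩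
    · rintro ⟨i, hi, h⟩
      rw [Finset.mem_filter, Pool.Agent.H694.Typ.mem_Mn] at h
      rw [Finset.mem_range] at hi
      exact ⟨h.1.1, by omega, h.2⟩
  rw [hs, finsum_mem_coe_finset, Finset.sum_biUnion]
  · refine Finset.sum_congr rfl fun i _ => Finset.sum_congr rfl fun E _ => ?_
    rw [htw, htw]
    have h1 : (Pool.Agent.H694.Typ.Irn K n).filter (fun p => (1 : K[X]) ∣ p + H) =
        Pool.Agent.H694.Typ.Irn K n :=
      Finset.filter_true_of_mem fun p _ => one_dvd _
    rw [h1]
    rfl
  · intro i _ j _ hij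
    rw [Function.onFun, Finset.disjoint_left]
    intro E hE hE'
    rw [Finset.mem_filter, Pool.Agent.H694.Typ.mem_Mn] at hE hE'
    exact hij (hE.1.2.symm.trans hE'.1.2)

end Pool.Agent.Results.MP_e9eb55_nt.EveryShiftPositiveLevel
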