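import Pool.Agent.H534.SZ.Fin4

/-!
# `dEH(N^θ)` for one single `θ ∈ (0,1)` excludes Landau–Siegel zeros

Definitions (as in the problem file): `g₁ = μ`, `g₂ = μ log`, `D g N θ` is `D_g(N;θ)`, `dEH θ` is `dEH(N^θ)`.
`RealPrimitive q χ`: `χ` is a primitive Dirichlet character mod `q` all of whose values are `0`, `1` or `-1`.
`NoLandauSiegel`: there is `c > 0` such that for all `q > 1` and all real primitive `χ` mod `q` we have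
`|L(1,χ)| ≥ c / log q`, and `L(s,χ)` has no real zero `≥ 1 - c / log q`.

* Part 1 is unconditional.  For every `θ ∈ (0,1)` there are `m, K, c > 0` such that for every real primitive `χ`
  mod `q > 1` and every `N ≥ q^K` divisible by `m q`: if `|L(1,χ)| log N ≤ c`, or if `L(β,χ) = 0` for some real
  `β < 1` with `(1-β) log N ≤ c`, then `D_μ(N;θ) ≥ N / (log N)^6`.
* Part 2: if for one `θ ∈ (0,1)` the bound of `dEH(N^θ)` holds just for `g = μ` and `A = 7`, there are no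
  Landau–Siegel zeros.
* Part 3: so `dEH(N^θ)` for some `θ ∈ (0,1)` implies that there are no Landau–Siegel zeros.
-/

set_option autoImplicit false

namespace Pool.Agent.Results.MP_e9eb55_nt.LandauSiegelZeros
open Finset

/-- `g₁ = μ` -/
noncomputable def g₁ (m : ℕ) : ℝ := ((ArithmeticFunction.moebius m : ℤ) : ℝ)

/-- `g₂ = μ log` -/
noncomputable def g₂ (m : ℕ) : ℝ := ((ArithmeticFunction.moebius m : ℤ) : ℝ) * Real.log m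

/-- `D_g(N;θ)`, as in the problem -/
noncomputable def D (g : ℕ → ℝ) (N : ℕ) (θ : ℝ) : ℝ :=
  ∑ q ∈ (Icc 1 ⌊(N : ℝ) ^ θ⌋₊).filter (fun q => q.Coprime N),
    |∑ n ∈ (Ico 1 N).filter (fun n => n ≡ N [MOD q]), ArithmeticFunction.vonMangoldt n * g (N - n) -
      1 / (Nat.totient q : ℝ) * ∑ n ∈ Ico 1 N, ArithmeticFunction.vonMangoldt n * g (N - n)|

/-- the statement `dEH(N^θ)` of the problem -/
def dEH (θ : ℝ) : Prop := ∀ A : ℝ, 0 < A → ∀ g : ℕ → ℝ, (g = g₁ ∨ g = g₂) →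
  ∃ (C : ℝ) (N₀ : ℕ), ∀ N : ℕ, N₀ ≤ N → D g N θ ≤ C * N * Real.log N ^ (-A)

/-- `χ` is a real primitive character mod `q` -/
def RealPrimitive (q : ℕ) (χ : DirichletCharacter ℂ q) : Prop :=
  χ.IsPrimitive ∧ ∀ a, χ a = 0 ∨ χ a = 1 ∨ χ a = -1

/-- there are no Landau–Siegel zeros, and `L(1,χ) ≫ 1 / log q` -/
def NoLandauSiegel : Prop := ∃ c : ℝ, 0 < c ∧ ∀ (q : ℕ) [NeZero q] (χ : DirichletCharacter ℂ q), 1 < q → RealPrimitive q χ →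
  c / Real.log q ≤ ‖χ.LFunction 1‖ ∧ ∀ β : ℝ, 1 - c / Real.log q ≤ β → χ.LFunction β ≠ 0

theorem result :
    (∀ θ : ℝ, 0 < θ → θ < 1 → ∃ (m K : ℕ) (c : ℝ), 0 < m ∧ 0 < K ∧ 0 < c ∧
      ∀ (q : ℕ) [NeZero q] (χ : DirichletCharacter ℂ q), 1 < q → RealPrimitive q χ →
      ∀ N : ℕ, 0 < N → m * q ∣ N → q ^ K ≤ N →
      (‖χ.LFunction 1‖ * Real.log N ≤ c ∨ ∃ β : ℝ, β < 1 ∧ χ.LFunction β = 0 ∧ (1 - β) * Real.log N ≤ c) →
      (N : ℝ) / Real.log N ^ 6 ≤ D g₁ N θ) ∧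
    (∀ θ : ℝ, 0 < θ → θ < 1 → (∃ (C : ℝ) (N₀ : ℕ), ∀ N : ℕ, N₀ ≤ N → D g₁ N θ ≤ C * N * Real.log N ^ (-(7 : ℝ))) →
      NoLandauSiegel) ∧
    ((∃ θ : ℝ, 0 < θ ∧ θ < 1 ∧ dEH θ) → NoLandauSiegel) := by
  have hRP : ∀ (q : ℕ) (χ : DirichletCharacter ℂ q), RealPrimitive q χ →
      Pool.Agent.E8helper22.SZ.RealPrim q χ := fun q χ h => ⟨h.1, h.2⟩
  have h2 : ∀ θ : ℝ, 0 < θ → θ < 1 →
      (∃ (C : ℝ) (N₀ : ℕ), ∀ N : ℕ, N₀ ≤ N → D g₁ N θ ≤ C * N * Real.log N ^ (-(7 : ℝ))) → NoLandauSiegel := by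
    intro θ h0 h1 h
    obtain ⟨c, hc, h2⟩ := Pool.Agent.H534.SZ.main2 θ h0 h1 h
    exact ⟨c, hc, fun q _ χ hq hχ => h2 q χ hq (hRP q χ hχ)⟩
  refine ⟨?_, h2, ?_⟩
  · intro θ h0 h1
    obtain ⟨m, K, c, hm, hK, hc, h⟩ := Pool.Agent.H534.SZ.main1 θ h0 h1
    exact ⟨m, K, c, hm, hK, hc, fun q _ χ hq hχ N hN hd hqK he => h q χ N hq (hRP q χ hχ) hd hN hqK he⟩
  · rintro ⟨θ, h0, h1, h⟩
    exact h2 θ h0 h1 (h 7 (by norm_num) g₁ (Or.inl rfl))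

end Pool.Agent.Results.MP_e9eb55_nt.LandauSiegelZeros
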